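import Pool.Agent.H577.Kim.Glob4
import Pool.Agent.H577.Kim.Done.UNIT0
import Pool.Agent.H577.Kim.Done.KUM2

set_option autoImplicit false

/-!
# The weakly global points when three roots are integers or imaginary quadratic integers

Let `X` be the projective line over the integers minus the zeros of the form `F` of a monic
polynomial `f` of degree `d` (admissible data, base point infinity), and let `g` be a monic divisor
of `f` of degree at least 3, all whose roots are integers or imaginary quadratic integers (`g` is a
product of linear polynomials and of quadratic polynomials with negative discriminant).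

* For every `n ≥ 1`, the set of the weakly global points of level `n` has at most two elements: the
  point at infinity and a rational point `(x : y)`, where `x / y` is the centre of the circle
  through the roots of `g` in the complex plane and where all ratios of the numbers `x - a y`, `a`
  running over the roots of `g`, are units (condition `(E)` for `g`).
* In particular, if the roots of `g` are not on a circle with rational centre (for instance if `f`
  has three integer roots), then for every `n ≥ 1` the point at infinity is the only weakly global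
  point of level `n`, and the only integral point; so Kim's conjecture is true, at level one.
* If `g = f`, then, for every `n ≥ 1`, the set of the weakly global points of level `n` is the set
  of all rational points `(x : y)` with `(E)` and `F(x, y)` prime to `p`. So it does not depend on
  `n`, and Kim's conjecture for `(f, p)` is true (then already at level one) if and only if
  `F(x, y)` is 1 or -1 for all coprime `x`, `y` with `(E)` and `F(x, y)` prime to `p`.

Proof. Let `a1, a2, b1, b2` be roots of `g` such that the function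
`(t - a1) (t - a2) / ((t - b1) (t - b2))` is defined over a field `K`, the rational numbers or an
imaginary quadratic field. By Kummer theory the push-out of a class of the Selmer scheme to the
Kummer local system of this function is given by elements of `K` whose valuations are divisible by
high powers of `p`; as `K` has no units of infinite order, the class is torsion. So the value of the
function at a weakly global point is a root of unity. It follows that all ratios of the `z - a` are
roots of unity. In every complex embedding `z` is the centre of a circle through the roots of `g`;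
so `z` is rational. Conversely points with `(E)` are weakly global by the criterion of the hand-in
`UnitRatios`.
-/

namespace Pool.Agent.Results.MP_fd87b4_nt.QuadraticRoots

open Y680.V Polynomial Pool.Agent.H577.Kim

/-- The condition `(E)`: for all `j`, the `d`-th power of the coefficient of `T ^ (d - j)` in
`F(x + T, y)` is divisible by `F(x, y) ^ j`, where `F` is the form and `d` the degree of `f`. -/
def E (f : ℤ[X]) (x y : ℤ) : Prop :=
  ∀ j ≤ f.natDegree,
    form f x y ^ j ∣ (form f (C x + X) (C y)).coeff (f.natDegree - j) ^ f.natDegree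

/-- All complex roots of `g` are integers or imaginary quadratic integers: every root `a` is a root
of a polynomial `T ^ 2 + u T + v` with integer coefficients and discriminant `≤ 0`. -/
def QuadRoots (g : ℤ[X]) : Prop :=
  ∀ a : ℂ, aeval a g = 0 → ∃ u v : ℤ, a ^ 2 + (u : ℂ) * a + (v : ℂ) = 0 ∧ u ^ 2 ≤ 4 * v

/-- The complex number `q` has the same distance from all complex roots of `g`. -/
def Centre (g : ℤ[X]) (q : ℂ) : Prop :=
  ∀ a b : ℂ, aeval a g = 0 → aeval b g = 0 → ‖q - a‖ = ‖q - b‖

theorem result (f : ℤ[X]) (p : ℕ) [Fact p.Prime] (hf : Admissible f p) :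
    -- `g` a divisor of degree at least 3 with integer or imaginary quadratic roots
    (∀ g : ℤ[X], g.Monic → g ∣ f → 3 ≤ g.natDegree → QuadRoots g → ∀ n : ℕ, 1 ≤ n →
      (weaklyGlobal (AlgebraicClosure (RatFunc ℚ)) f p n).encard ≤ 2 ∧
      (∀ z ∈ weaklyGlobal (AlgebraicClosure (RatFunc ℚ)) f p n, z ≠ none →
        ∃ x y : ℤ, IsCoprime x y ∧ y ≠ 0 ∧ z = some ((x : ℚ_[p]) / (y : ℚ_[p])) ∧
          ¬ (p : ℤ) ∣ form f x y ∧ E g x y ∧ Centre g ((x : ℂ) / (y : ℂ))) ∧
      ((∀ q : ℚ, ¬ Centre g (q : ℂ)) →
        weaklyGlobal (AlgebraicClosure (RatFunc ℚ)) f p n = {none} ∧ intPts f p = {none})) ∧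
    -- all roots of `f` are integers or imaginary quadratic integers
    (QuadRoots f →
      (∀ n : ℕ, 1 ≤ n → weaklyGlobal (AlgebraicClosure (RatFunc ℚ)) f p n =
        {z | ∃ x y : ℤ, IsCoprime x y ∧ IsPt z (x : ℚ_[p]) (y : ℚ_[p]) ∧
          ¬ (p : ℤ) ∣ form f x y ∧ E f x y}) ∧
      ((∃ N : ℕ, ∀ n : ℕ, N ≤ n →
          weaklyGlobal (AlgebraicClosure (RatFunc ℚ)) f p n = intPts f p) ↔
        ∀ x y : ℤ, IsCoprime x y → ¬ (p : ℤ) ∣ form f x y → E f x y → IsUnit (form f x y)) ∧
      ((∃ N : ℕ, ∀ n : ℕ, N ≤ n →
          weaklyGlobal (AlgebraicClosure (RatFunc ℚ)) f p n = intPts f p) →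
        ∀ n : ℕ, 1 ≤ n → weaklyGlobal (AlgebraicClosure (RatFunc ℚ)) f p n = intPts f p)) := by
  have h0 : ∀ x y : ℤ, ¬ (p : ℤ) ∣ form f x y → form f x y ≠ 0 := by
    intro x y hF h0
    exact hF (h0 ▸ dvd_zero _)
  have hA : ∀ g : ℤ[X], g.Monic → g ∣ f → 3 ≤ g.natDegree → QuadRoots g →
      ∀ n : ℕ, 1 ≤ n → weaklyGlobal (AlgebraicClosure (RatFunc ℚ)) f p n ⊆
        {z | ∃ x y : ℤ, IsCoprime x y ∧ IsPt z (x : ℚ_[p]) (y : ℚ_[p]) ∧
          ¬ (p : ℤ) ∣ form f x y ∧ E g x y} := by
    intro g hg hgf hd hIQ n hn z hz
    exact upper D550.kum2 D903.unit0 hf hg hgf hd hIQ hn hz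
  have hB : QuadRoots f →
      ∀ n : ℕ, 1 ≤ n → weaklyGlobal (AlgebraicClosure (RatFunc ℚ)) f p n =
        {z | ∃ x y : ℤ, IsCoprime x y ∧ IsPt z (x : ℚ_[p]) (y : ℚ_[p]) ∧
          ¬ (p : ℤ) ∣ form f x y ∧ E f x y} := by
    intro hIQ n hn
    refine Set.Subset.antisymm (hA f hf.monic (dvd_refl f) hf.deg hIQ n hn) ?_
    rintro z ⟨x, y, hxy, hz, hF, hE⟩
    exact inclusion hf hF (unitRatios_of hf.monic (h0 x y hF) hE) n z hz
  have hi : (none : Option ℚ_[p]) ∈ intPts f p := by
    refine ⟨1, 0, ?_, Or.inl ⟨by simp, rfl⟩⟩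
    rw [form_one_zero hf.monic]
    exact isUnit_one
  refine ⟨?_, ?_⟩
  · intro g hg hgf hd hQ n hn
    have hfin : ∀ z ∈ weaklyGlobal (AlgebraicClosure (RatFunc ℚ)) f p n, z ≠ none →
        ∃ x y : ℤ, IsCoprime x y ∧ y ≠ 0 ∧ z = some ((x : ℚ_[p]) / (y : ℚ_[p])) ∧
          ¬ (p : ℤ) ∣ form f x y ∧ E g x y ∧ Centre g ((x : ℂ) / (y : ℂ)) := by
      intro z hz hz0
      obtain ⟨x, y, hxy, hpt, hF, hE⟩ := hA g hg hgf hd hQ n hn hz
      rcases hpt with ⟨_, h1⟩ | ⟨h1, h2⟩
      · exact absurd h1 hz0
      · have hy : y ≠ 0 := by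
          rintro rfl
          exact h1 Int.cast_zero
        refine ⟨x, y, hxy, hy, h2, hF, hE, ?_⟩
        have hg0 : form g x y ≠ 0 := by
          intro h3
          apply h0 x y hF
          obtain ⟨h, hh⟩ := hgf
          have hhm : h.Monic := hg.of_mul_monic_left (hh ▸ hf.monic)
          rw [hh, form_mul' hg hhm, h3, zero_mul]
        have hyC : (y : ℂ) ≠ 0 := by exact_mod_cast hy
        intro a b ha hb
        have h4 := equal_abs (unitRatios_of hg hg0 hE) hg0 hQ ha hb
        have h5 : ∀ c : ℂ, (x : ℂ) / (y : ℂ) - c = ((x : ℂ) - c * y) / y := by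
          intro c
          field_simp
        rw [h5, h5, norm_div, norm_div, h4]
    have hsep : (g.map (Int.castRingHom ℚ)).Separable := by
      obtain ⟨h, hh⟩ := hgf
      have h1 := hf.sep
      rw [hh, Polynomial.map_mul] at h1
      exact h1.of_mul_left
    have huniq : ∀ z ∈ weaklyGlobal (AlgebraicClosure (RatFunc ℚ)) f p n, z ≠ none →
        ∀ z' ∈ weaklyGlobal (AlgebraicClosure (RatFunc ℚ)) f p n, z' ≠ none → z' = z := by
      intro z hz hz0 z' hz' hz0'
      obtain ⟨x, y, -, hy, h2, -, -, hc⟩ := hfin z hz hz0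
      obtain ⟨x', y', -, hy', h2', -, -, hc'⟩ := hfin z' hz' hz0'
      have h3 := centre_unique hsep hd hc hc'
      have h4 : ((x : ℚ) / (y : ℚ) : ℚ) = (x' : ℚ) / (y' : ℚ) := by
        have : (((x : ℚ) / (y : ℚ) : ℚ) : ℂ) = (((x' : ℚ) / (y' : ℚ) : ℚ) : ℂ) := by
          push_cast
          exact h3
        exact_mod_cast this
      rw [h2, h2']
      have h5 := congrArg (fun q : ℚ => (q : ℚ_[p])) h4
      push_cast at h5
      rw [h5]
    have hpair : ∀ a b : Option ℚ_[p], ({a, b} : Set (Option ℚ_[p])).encard ≤ 2 := by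
      intro a b
      refine (Set.encard_insert_le _ _).trans ?_
      rw [Set.encard_singleton]
      norm_num
    refine ⟨?_, hfin, ?_⟩
    · by_cases hex : ∃ z ∈ weaklyGlobal (AlgebraicClosure (RatFunc ℚ)) f p n, z ≠ none
      · obtain ⟨z, hz, hz0⟩ := hex
        refine (Set.encard_le_encard (t := {none, z}) ?_).trans (hpair _ _)
        intro z' hz'
        by_cases h : z' = none
        · exact Or.inl h
        · exact Or.inr (huniq z hz hz0 z' hz' h)
      · refine (Set.encard_le_encard (t := {none, none}) ?_).trans (hpair _ _)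
        intro z' hz'
        left
        by_contra h
        exact hex ⟨z', hz', h⟩
    · intro hnc
      have hw : weaklyGlobal (AlgebraicClosure (RatFunc ℚ)) f p n ⊆ {none} := by
        intro z hz
        by_contra h
        obtain ⟨x, y, -, -, -, -, -, hc⟩ := hfin z hz h
        apply hnc ((x : ℚ) / (y : ℚ))
        push_cast
        exact hc
      refine ⟨Set.Subset.antisymm hw ?_, Set.Subset.antisymm ((intPts_subset n).trans hw) ?_⟩
      · rintro z rfl
        exact intPts_subset n hi
      · rintro z rfl
        exact hi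
  · intro hIQ
    have hC : (∀ x y : ℤ, IsCoprime x y → ¬ (p : ℤ) ∣ form f x y → E f x y →
        IsUnit (form f x y)) →
        ∀ n : ℕ, 1 ≤ n → weaklyGlobal (AlgebraicClosure (RatFunc ℚ)) f p n = intPts f p := by
      intro h n hn
      refine Set.Subset.antisymm ?_ (intPts_subset n)
      rw [hB hIQ n hn]
      rintro z ⟨x, y, hxy, hz, hF, hE⟩
      exact ⟨x, y, h x y hxy hF hE, hz⟩
    have hD : (∃ N : ℕ, ∀ n : ℕ, N ≤ n →
          weaklyGlobal (AlgebraicClosure (RatFunc ℚ)) f p n = intPts f p) →
        ∀ x y : ℤ, IsCoprime x y → ¬ (p : ℤ) ∣ form f x y → E f x y → IsUnit (form f x y) := by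
      rintro ⟨N, hN⟩ x y hxy hF hE
      by_contra hu
      have h1 := failure hf hxy hF (unitRatios_of hf.monic (h0 x y hF) hE) hu N
      exact h1.ne (hN N le_rfl).symm
    exact ⟨hB hIQ, ⟨hD, fun h => ⟨1, fun n hn => hC h n hn⟩⟩, fun h => hC (hD h)⟩

end Pool.Agent.Results.MP_fd87b4_nt.QuadraticRoots
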