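import Pool.Agent.H577.Kim.Coro

set_option autoImplicit false

/-!
# The rational points in the Selmer scheme, and non-integral weakly global points

Let `X` be the projective line over the integers minus the zeros of the form `F` of a monic
polynomial `f` of degree `d` (admissible data, base point infinity). For integers `x`, `y` let `e j`
be the coefficient of `T ^ (d - j)` in `F(x + T, y) = ∏ (T + (x - a y))`, `a` running over the roots
of `f`; so `e d = F(x, y)`. Consider the condition `(E)`: `F(x, y) ^ j` divides `(e j) ^ d` for all
`j`; it means that all ratios of the numbers `x - a y` are units. Let `F(x, y)` be prime to `p`.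

* For every level `n ≥ 1`, the class of the rational point `(x : y)` in the unipotent fundamental
  group of level `n` belongs to the Selmer scheme (at all primes `l ≠ p` it is the class of an
  integral point over the `l`-adic integers) if and only if `(E)` holds; so this does not depend on
  `n`.
* If `(E)` holds then `(x : y)` is a weakly global point of level `n` for all `n`. Hence, if there
  is such a point which is not integral, the integral points are a proper subset of the weakly
  global points of level `n`, for all `n`.
* If `f` is modulo no prime `l ≠ p` the `d`-th power of a linear polynomial, then only the integral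
  points have their class in the Selmer scheme, at every level `n ≥ 1`.

Proof. Let `(E)` hold. There is a unipotent path from infinity to `(x : y)` which is invariant under
the decomposition group at `l`: the obstruction is the action of the inertia group on the quotient
of level one (weights), and there it is given by the Kummer classes of the ratios of the `x - a y`,
which are unramified. Conversely, let the class of `(x : y)` be the class of an integral point `z`
over the `l`-adic integers. The entries of the two unipotent paths on the local system of rank two
of the function `(t - a) / (t - b)` show that the quotient of its values at `(x : y)` and at `z` has,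
after raising to a fixed power and multiplication by roots of unity, `p ^ k`-th roots in a fixed
finite extension of the field of `l`-adic numbers for all `k`; so it is a unit. At `z` the value is a
unit, by integrality.
-/

namespace Pool.Agent.Results.MP_fd87b4_nt.UnitRatios

open Y680.V Polynomial Pool.Agent.H577.Kim

/-- The condition `(E)`: for all `j`, the `d`-th power of the coefficient of `T ^ (d - j)` in
`F(x + T, y)` is divisible by `F(x, y) ^ j`. -/
def E (f : ℤ[X]) (x y : ℤ) : Prop :=
  ∀ j ≤ f.natDegree,
    form f x y ^ j ∣ (form f (C x + X) (C y)).coeff (f.natDegree - j) ^ f.natDegree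

theorem result (f : ℤ[X]) (p : ℕ) [Fact p.Prime] (hf : Admissible f p) :
    -- the classes of rational points in the Selmer scheme of level `n`
    (∀ n : ℕ, 1 ≤ n → ∀ x y : ℤ, ¬ (p : ℤ) ∣ form f x y →
      ∀ z : Option ℚ, IsPt z (x : ℚ) (y : ℚ) → (InSelmer f p n z ↔ E f x y)) ∧
    -- these points are weakly global of all levels
    (∀ n : ℕ, ∀ x y : ℤ, ¬ (p : ℤ) ∣ form f x y → E f x y →
      ∀ z : Option ℚ_[p], IsPt z (x : ℚ_[p]) (y : ℚ_[p]) →
        z ∈ weaklyGlobal (AlgebraicClosure (RatFunc ℚ)) f p n) ∧
    -- if such a point is not integral, then the conjecture fails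
    (∀ x y : ℤ, IsCoprime x y → ¬ (p : ℤ) ∣ form f x y → E f x y → ¬ IsUnit (form f x y) →
      ∀ n : ℕ, intPts f p ⊂ weaklyGlobal (AlgebraicClosure (RatFunc ℚ)) f p n) ∧
    -- if `f` is modulo no prime a power of a linear polynomial: only the integral points
    ((∀ l : ℕ, l.Prime → l ≠ p → ∀ a : ZMod l,
        f.map (Int.castRingHom (ZMod l)) ≠ (X - C a) ^ f.natDegree) →
      ∀ n : ℕ, 1 ≤ n → ∀ x y : ℤ, IsCoprime x y → ¬ (p : ℤ) ∣ form f x y →
        ∀ z : Option ℚ, IsPt z (x : ℚ) (y : ℚ) → (InSelmer f p n z ↔ IsUnit (form f x y))) := by
  have h0 : ∀ x y : ℤ, ¬ (p : ℤ) ∣ form f x y → form f x y ≠ 0 := by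
    intro x y hF h0
    exact hF (h0 ▸ dvd_zero _)
  refine ⟨?_, ?_, ?_, ?_⟩
  · intro n hn x y hF z hz
    exact ⟨crit_of_inSelmer hf hn hF hz, inSelmer_of_crit hf n hF hz⟩
  · intro n x y hF h z hz
    exact inclusion hf hF (unitRatios_of hf.monic (h0 x y hF) h) n z hz
  · intro x y hxy hF h hN n
    exact failure hf hxy hF (unitRatios_of hf.monic (h0 x y hF) h) hN n
  · intro h n hn x y hxy hF z hz
    exact inSelmer_iff_unit hf h hn hxy hF hz

end Pool.Agent.Results.MP_fd87b4_nt.UnitRatios
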